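import Pool.Agent.R460.GR.Conv

/-!
The theorems of the projects GS and GR in one statement.
-/

set_option autoImplicit false

namespace Pool.Agent.R460.GR

open Pool.Agent.R460.GS

/-- classes with a small common divisor, or regular moduli -/
theorem class_few_both (Q : ℕ → Prop) (W : ℕ)
    (hQ : ∃ n₀ : ℕ, ∀ n : ℕ, n₀ ≤ n → 2 ∣ n → WinL W n → Q n) (ρ : ℝ) (hρ : 0 < ρ) (A T : ℕ) :
    ∃ c : ℕ, ∀ B : ℕ, ∃ x₀ : ℝ, ∀ x : ℝ, x₀ ≤ x → ∃ D : Finset ℕ, (D.card : ℝ) ≤ Real.log x ^ c ∧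
      (∀ d ∈ D, Real.log x ^ B < (d : ℝ)) ∧
      ∀ q : ℕ, 1 ≤ q → (q : ℝ) ≤ x ^ (7 / 10 - ρ) → ∀ a : ℤ,
        ((Int.gcd a q : ℝ) ≤ Real.log x ^ T ∨ ∀ d ∈ D, ¬ d ∣ q) →
        ({n : ℕ | 0 < n ∧ (n : ℝ) ≤ x ∧ 2 ∣ n ∧ (n : ℤ) ≡ a [ZMOD q] ∧ ¬ Q n}).Finite ∧
        (({n : ℕ | 0 < n ∧ (n : ℝ) ≤ x ∧ 2 ∣ n ∧ (n : ℤ) ≡ a [ZMOD q] ∧ ¬ Q n}.ncard : ℕ) : ℝ) ≤
          x / (q * Real.log x ^ A) := by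
  obtain ⟨x₁, h1⟩ := class_few Q W hQ ρ hρ A T
  obtain ⟨c, h2⟩ := class_few_reg Q W hQ ρ hρ A
  refine ⟨c, fun B => ?_⟩
  obtain ⟨x₂, h2⟩ := h2 B
  refine ⟨max x₁ x₂, fun x hx => ?_⟩
  obtain ⟨D, hD1, hD2, hD⟩ := h2 x ((le_max_right _ _).trans hx)
  refine ⟨D, hD1, hD2, fun q hq hqx a hor => ?_⟩
  rcases hor with h | h
  · exact h1 x ((le_max_left _ _).trans hx) q hq hqx a h
  · exact hD q hq hqx h a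

end Pool.Agent.R460.GR
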