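import Pool.Agent.Y662.GJ.Core
import Pool.Agent.Helper112.MultLS
import Pool.Agent.TH935.LP.L1

set_option autoImplicit false

/-! Few primitive characters have a large sum. -/

namespace Pool.Agent.R460.GR

open Finset
open Pool.Agent.Y662.GJ (power)

lemma ls_sub (Q Z : ℕ) (w : ℕ → ℂ) (Ψ : Finset (Σ f : ℕ, DirichletCharacter ℂ f))
    (hΨ : ∀ ψ ∈ Ψ, 1 ≤ ψ.1 ∧ ψ.1 ≤ Q ∧ ψ.2.IsPrimitive) :
    ∑ ψ ∈ Ψ, ‖∑ n ∈ Icc 1 Z, w n * ψ.2 (n : ZMod ψ.1)‖ ^ 2 ≤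
      6 * (Z + (Q : ℝ) ^ 2) * ∑ n ∈ Icc 1 Z, ‖w n‖ ^ 2 := by
  classical
  refine le_trans ?_ (Pool.Agent.Helper112.mult_large_sieve Z Q w)
  have h1 : Ψ ⊆ (Icc 1 Q).sigma (fun f => (univ : Finset (DirichletCharacter ℂ f)).filter
      (fun χ => χ.IsPrimitive)) := by
    intro ψ hψ
    obtain ⟨e1, e2, e3⟩ := hΨ ψ hψ
    rw [mem_sigma]
    exact ⟨mem_Icc.2 ⟨e1, e2⟩, mem_filter.2 ⟨mem_univ _, e3⟩⟩
  refine (sum_le_sum_of_subset_of_nonneg h1 fun _ _ _ => sq_nonneg _).trans ?_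
  rw [sum_sigma]
  refine sum_le_sum fun f hf => ?_
  rw [mem_Icc] at hf
  have h2 : (1 : ℝ) ≤ (f : ℝ) / (Nat.totient f : ℝ) := by
    have h3 : 0 < Nat.totient f := Nat.totient_pos.2 hf.1
    rw [le_div_iff₀ (by exact_mod_cast h3), one_mul]
    exact_mod_cast Nat.totient_le f
  have h3 : 0 ≤ ∑ χ ∈ (univ : Finset (DirichletCharacter ℂ f)).filter (fun χ => χ.IsPrimitive),
      ‖∑ n ∈ Icc 1 Z, w n * χ (n : ZMod f)‖ ^ 2 := sum_nonneg fun _ _ => sq_nonneg _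
  calc _ = 1 * ∑ χ ∈ (univ : Finset (DirichletCharacter ℂ f)).filter (fun χ => χ.IsPrimitive),
      ‖∑ n ∈ Icc 1 Z, w n * χ (n : ZMod f)‖ ^ 2 := (one_mul _).symm
    _ ≤ _ := mul_le_mul_of_nonneg_right h2 h3

/-- few primitive characters have a large sum -/
theorem countP : ∃ c : ℕ, ∀ (Q X : ℕ) (a : ℕ → ℂ) (ℓ T : ℝ), 1 ≤ X →
    1 + Real.log X ≤ ℓ → 0 < T → (∀ m ∈ Icc 1 X, ‖a m‖ ≤ ℓ * (m.divisors.card : ℝ)) →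
    ∀ Ψ : Finset (Σ f : ℕ, DirichletCharacter ℂ f),
    (∀ ψ ∈ Ψ, 1 ≤ ψ.1 ∧ ψ.1 ≤ Q ∧ ψ.2.IsPrimitive ∧
      T < ‖∑ m ∈ Icc 1 X, a m * ψ.2 (m : ZMod ψ.1)‖) →
    (Ψ.card : ℝ) * T ^ 20 ≤ 6 * ((X : ℝ) ^ 10 + (Q : ℝ) ^ 2) * X ^ 10 * (10 * ℓ) ^ c := by
  obtain ⟨k, hk⟩ : ∃ k : ℕ, k = 2 ^ 38 := ⟨_, rfl⟩
  have hτ : ∀ Z : ℕ, 1 ≤ Z → ∑ n ∈ Icc 1 Z, (n.divisors.card : ℝ) ^ 38 ≤ Z * (1 + Real.log Z) ^ k := by
    intro Z _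
    rw [hk]
    exact Pool.Agent.TH935.LD.tau_pow_sum 38 Z
  clear hk
  refine ⟨k + 20, ?_⟩
  intro Q X a ℓ T hX hℓ hT ha Ψ hΨ
  have hlog : 0 ≤ Real.log X := Real.log_nonneg (by exact_mod_cast hX)
  have hℓ1 : 1 ≤ ℓ := by linarith
  have hℓ0 : 0 ≤ ℓ := by linarith
  -- the tenth power; the coefficients do not depend on the character
  obtain ⟨w, hw, hw2⟩ : ∃ w : ℕ → ℂ,
      (∀ n ∈ Icc 1 (X ^ 10), ‖w n‖ ≤ ℓ ^ 10 * (n.divisors.card : ℝ) ^ 19) ∧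
      ∀ (q : ℕ) (χ : DirichletCharacter ℂ q), (∑ m ∈ Icc 1 X, a m * χ (m : ZMod q)) ^ 10 =
        ∑ n ∈ Icc 1 (X ^ 10), w n * χ (n : ZMod q) := by
    have key : ∀ j : ℕ, ∃ w : ℕ → ℂ,
        (∀ n ∈ Icc 1 (X ^ (j + 1)), ‖w n‖ ≤ ℓ ^ (j + 1) * (n.divisors.card : ℝ) ^ (2 * j + 1)) ∧
        ∀ (q : ℕ) (χ : DirichletCharacter ℂ q), (∑ m ∈ Icc 1 X, a m * χ (m : ZMod q)) ^ (j + 1) =
          ∑ n ∈ Icc 1 (X ^ (j + 1)), w n * χ (n : ZMod q) := by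
      intro j
      induction j with
      | zero => exact ⟨a, by simpa using ha, by simp⟩
      | succ j ih =>
        obtain ⟨w, hw, hw2⟩ := ih
        refine ⟨Pool.Agent.Y662.GJ.cv (X ^ (j + 1)) X w a, ?_, ?_⟩
        · intro n hn
          have := Pool.Agent.Y662.GJ.cv_bound (X ^ (j + 1)) X (2 * j + 1) 1 w a (ℓ ^ (j + 1)) ℓ
            (by positivity) hℓ0 hw (by simpa using ha) n (Finset.mem_Icc.mp hn).1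
          calc ‖Pool.Agent.Y662.GJ.cv (X ^ (j + 1)) X w a n‖ ≤ _ := this
            _ = _ := by rw [← pow_succ, show 2 * j + 1 + 1 + 1 = 2 * (j + 1) + 1 by ring]
        · intro q χ
          rw [pow_succ, hw2, Pool.Agent.Y662.GJ.cv_sum, ← pow_succ]
    obtain ⟨w, hw, hw2⟩ := key 9
    exact ⟨w, by simpa using hw, fun q χ => by simpa using hw2 q χ⟩
  have h1 : (Ψ.card : ℝ) * T ^ 20 ≤
      ∑ ψ ∈ Ψ, ‖∑ n ∈ Icc 1 (X ^ 10), w n * ψ.2 (n : ZMod ψ.1)‖ ^ 2 := by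
    calc (Ψ.card : ℝ) * T ^ 20 = ∑ ψ ∈ Ψ, T ^ 20 := by rw [Finset.sum_const, nsmul_eq_mul]
      _ ≤ ∑ ψ ∈ Ψ, ‖∑ n ∈ Icc 1 (X ^ 10), w n * ψ.2 (n : ZMod ψ.1)‖ ^ 2 := by
          refine Finset.sum_le_sum fun ψ hψ => ?_
          rw [← hw2, norm_pow, ← pow_mul]
          exact pow_le_pow_left₀ hT.le (hΨ ψ hψ).2.2.2.le _
  have h2 : ∑ n ∈ Icc 1 (X ^ 10), ‖w n‖ ^ 2 ≤ (X : ℝ) ^ 10 * (10 * ℓ) ^ (k + 20) := by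
    calc ∑ n ∈ Icc 1 (X ^ 10), ‖w n‖ ^ 2 ≤
        ∑ n ∈ Icc 1 (X ^ 10), ℓ ^ 20 * (n.divisors.card : ℝ) ^ 38 := by
          refine Finset.sum_le_sum fun n hn => ?_
          calc ‖w n‖ ^ 2 ≤ (ℓ ^ 10 * (n.divisors.card : ℝ) ^ 19) ^ 2 :=
                pow_le_pow_left₀ (norm_nonneg _) (hw n hn) _
            _ = _ := by ring
      _ = ℓ ^ 20 * ∑ n ∈ Icc 1 (X ^ 10), (n.divisors.card : ℝ) ^ 38 := by rw [Finset.mul_sum]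
      _ ≤ ℓ ^ 20 * (((X ^ 10 : ℕ) : ℝ) * (1 + Real.log ((X ^ 10 : ℕ) : ℝ)) ^ k) :=
          mul_le_mul_of_nonneg_left (hτ _ (Nat.one_le_pow _ _ hX)) (by positivity)
      _ ≤ (10 * ℓ) ^ 20 * ((X : ℝ) ^ 10 * (10 * ℓ) ^ k) := by
          push_cast
          rw [Real.log_pow]
          have e1 : (1 + ((10 : ℕ) : ℝ) * Real.log X) ≤ 10 * ℓ := by
            push_cast
            linarith
          have e0 : 0 ≤ 1 + ((10 : ℕ) : ℝ) * Real.log X := by positivity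
          have e2 := pow_le_pow_left₀ e0 e1 k
          refine mul_le_mul (pow_le_pow_left₀ hℓ0 (by linarith) _)
            (mul_le_mul_of_nonneg_left e2 (by positivity)) (by positivity) (by positivity)
      _ = _ := by rw [pow_add]; ring
  calc (Ψ.card : ℝ) * T ^ 20 ≤ _ := h1
    _ ≤ 6 * (((X ^ 10 : ℕ) : ℝ) + (Q : ℝ) ^ 2) * ∑ n ∈ Icc 1 (X ^ 10), ‖w n‖ ^ 2 :=
        ls_sub Q _ w Ψ fun ψ hψ => ⟨(hΨ ψ hψ).1, (hΨ ψ hψ).2.1, (hΨ ψ hψ).2.2.1⟩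
    _ ≤ 6 * (((X ^ 10 : ℕ) : ℝ) + (Q : ℝ) ^ 2) * ((X : ℝ) ^ 10 * (10 * ℓ) ^ (k + 20)) :=
        mul_le_mul_of_nonneg_left h2 (by positivity)
    _ = _ := by push_cast; ring

end Pool.Agent.R460.GR
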